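import Pool.Agent.Helper5.KL16

set_option autoImplicit false

namespace Pool.Agent.Results.MP_16af68_gt.NotHomeomorphic

open Pool.Agent.Helper5.KL16

/-- A class `K` of T0 spaces (given as a predicate on topological spaces) is a Keimel-Lawson
category: (K1) closed under homeomorphism, (K2) contains all sober spaces, (K3) in a sober space
any intersection of K-subspaces is a K-space, (K4) preimages of K-subspaces under continuous maps
between sober spaces are K-subspaces. -/
structure IsKeimelLawson (K : (X : Type) → [TopologicalSpace X] → Prop) : Prop where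
  t0 : ∀ (X : Type) [TopologicalSpace X], K X → T0Space X
  homeo : ∀ (X Y : Type) [TopologicalSpace X] [TopologicalSpace Y], Nonempty (X ≃ₜ Y) → K X → K Y
  sober : ∀ (X : Type) [TopologicalSpace X] [T0Space X] [QuasiSober X], K X
  sInter : ∀ (Y : Type) [TopologicalSpace Y] [T0Space Y] [QuasiSober Y] (S : Set (Set Y)),
    (∀ A ∈ S, K ↥A) → K ↥(⋂₀ S)
  preimage : ∀ (X Y : Type) [TopologicalSpace X] [TopologicalSpace Y] [T0Space X] [QuasiSober X]
    [T0Space Y] [QuasiSober Y] (f : X → Y), Continuous f → ∀ B : Set Y, K ↥B → K ↥(f ⁻¹' B)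

/-- `μ : X → R` is a K-reflection of `X`. -/
def IsReflection (K : (X : Type) → [TopologicalSpace X] → Prop) {X R : Type}
    [TopologicalSpace X] [TopologicalSpace R] (μ : X → R) : Prop :=
  Continuous μ ∧ K R ∧ ∀ (Z : Type) [TopologicalSpace Z], K Z → ∀ g : X → Z, Continuous g →
    ∃! h : R → Z, Continuous h ∧ h ∘ μ = g

/-- There are a Keimel-Lawson category `K` and countably many T0 spaces `X n` with K-reflections
`η n : X n → R n` such that no K-reflection of the product of the `X n` is homeomorphic to the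
product of the `R n`. -/
theorem result :
    ∃ K : (X : Type) → [TopologicalSpace X] → Prop, IsKeimelLawson K ∧
      ∃ (X R : ℕ → Type) (_ : ∀ n, TopologicalSpace (X n)) (_ : ∀ n, TopologicalSpace (R n))
        (η : ∀ n, X n → R n), (∀ n, T0Space (X n)) ∧ (∀ n, IsReflection K (η n)) ∧
        ∀ (Q : Type) [TopologicalSpace Q] (μ : (∀ n, X n) → Q), IsReflection K μ →
          ¬ Nonempty (Q ≃ₜ ∀ n, R n) := by
  refine ⟨@KK, ⟨fun X _ h => h.1, ?_, fun X _ _ _ => KK_of_sober X, ?_, ?_⟩, XX, RR,
    inferInstance, inferInstance, fun n => Subtype.val, fun n => inferInstance, ?_, ?_⟩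
  rotate_right
  · rintro Q _ μ ⟨-, -, h3⟩ ⟨φ⟩
    let g : (∀ n, XX n) → YY := fun x => ⟨fun n => (x n : RR n), by
      have : {n : ℕ | (x n : RR n) = ⊤} = ∅ := by
        ext n
        simpa using (x n).2
      change {n : ℕ | (x n : RR n) = ⊤}.Finite
      rw [this]
      exact Set.finite_empty⟩
    have hg : Continuous g := by
      refine Continuous.subtype_mk ?_ _
      exact continuous_pi fun n => continuous_subtype_val.comp (continuous_apply n)
    obtain ⟨h, ⟨hh, hhg⟩, -⟩ := h3 YY KK_YY g hg
    let t : Q := φ.symm fun _ => ⊤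
    have ht : ∀ q : Q, t ⤳ q := by
      intro q
      have h1 : (fun _ => ⊤ : ∀ n : ℕ, RR n) ⤳ φ q := by
        rw [specializes_pi]
        intro k
        rw [spec_RR]
        exact le_top
      have h2 := h1.map φ.symm.continuous
      rwa [φ.symm_apply_apply] at h2
    let y : ∀ n : ℕ, RR n := (h t : YY)
    have hy : {n | y n = ⊤}.Finite := (h t : YY).2
    obtain ⟨n, hn⟩ := hy.exists_notMem
    obtain ⟨a, ha⟩ := exists_emb (show y n ≠ ⊤ from hn)
    obtain ⟨b, hb⟩ := exists_gt' n a
    let w : ∀ k, XX k := fun k =>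
      if hk : k = n then ⟨emb (hk ▸ b), emb_ne _⟩ else ⟨emb (Classical.arbitrary (W k)), emb_ne _⟩
    have hw : ((w n : XX n) : RR n) = emb b := by
      simp [w]
    have h5 := (ht (μ w)).map hh
    have h6 : h (μ w) = g w := congrFun hhg w
    rw [h6, subtype_specializes_iff, specializes_pi] at h5
    have h8 : (w n : RR n) ≤ y n := spec_RR.1 (h5 n)
    rw [hw, ← ha] at h8
    exact absurd (emb_le.1 h8) (not_le.2 hb)
  · rintro X Y _ _ ⟨e⟩ ⟨h0, hX⟩
    refine ⟨e.symm.isEmbedding.t0Space, fun m c hc => ?_⟩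
    obtain ⟨x, hx⟩ := hX m (e.symm ∘ c) (hc.map e.symm.continuous)
    refine ⟨e x, ?_⟩
    have := hx.map e.continuous
    have h2 : (⇑e ∘ ⇑e.symm ∘ c) = c := by
      funext a
      simp
    rwa [h2] at this
  · intro Y _ _ _ S hS
    refine ⟨inferInstance, fun m c hc => ?_⟩
    have hc' : Chain (fun a => (c a : Y)) := hc.map continuous_subtype_val
    obtain ⟨y, hy⟩ := sober_gen hc'
    refine ⟨⟨y, ?_⟩, hy.sub _⟩
    intro A hA
    let d : W m → A := fun a => ⟨c a, (c a).2 A hA⟩
    have hd : Chain d := by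
      intro a b hab
      rw [subtype_specializes_iff]
      exact hc' a b hab
    obtain ⟨a, ha⟩ := (hS A hA).2 m d hd
    have h2 := ha.map continuous_subtype_val
    have h3 : (a : Y) = y := Gen.unique h2 hy
    rw [← h3]
    exact a.2
  · intro X Y _ _ _ _ _ _ f hf B hB
    refine ⟨inferInstance, fun m c hc => ?_⟩
    have hc' : Chain (fun a => (c a : X)) := hc.map continuous_subtype_val
    obtain ⟨x, hx⟩ := sober_gen hc'
    refine ⟨⟨x, ?_⟩, hx.sub _⟩
    let d : W m → B := fun a => ⟨f (c a), (c a).2⟩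
    have hd : Chain d := by
      intro a b hab
      rw [subtype_specializes_iff]
      exact (hc' a b hab).map hf
    obtain ⟨b, hb⟩ := hB.2 m d hd
    have h2 := hb.map continuous_subtype_val
    have h3 : (b : Y) = f x := Gen.unique h2 (hx.map hf)
    change f x ∈ B
    rw [← h3]
    exact b.2
  · intro n
    refine ⟨continuous_subtype_val, KK_RR n, ?_⟩
    intro Z _ hZ g hg
    exact XX_refl n Z hZ g hg

end Pool.Agent.Results.MP_16af68_gt.NotHomeomorphic
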